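import Pool.Agent.helper77.BND.SpecB

/-!
# bnd, row BIJ: classes which die in the crossed product
-/

set_option autoImplicit false

open scoped Topology Matrix
open Filter Finset

namespace Pool.Agent.BND

open Pool.Agent.CZ Pool.Agent.PV

theorem BIJ_smooth (hSMA : SMA_stmt) (B : BS) [CompactSpace ↥(XS B)] (A : Type) [CStarAlgebra A]
    (ι : C(↥(XS B), ℂ) →⋆ₐ[ℂ] A) (u : unitary A) (c : ℤ → A →ₗ[ℂ] C(↥(XS B), ℂ)) (m : ℕ) (a : A)
    (ha : InS B ι u c m a) : Sm ι u a := by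
  obtain ⟨h1, h0, -, hadd, -⟩ := hSMA ↥(XS B) A ι u
  have hH : ∀ e, e < (B.L m).N → (B.L m).h e ≤ ∑ e ∈ range (B.L m).N, (B.L m).h e := fun e he =>
    Finset.single_le_sum (f := (B.L m).h) (fun _ _ => Nat.zero_le _) (Finset.mem_range.2 he)
  rw [ha.sum _ hH]
  exact Finset.sum_induction _ (Sm ι u) hadd h0 fun n _ => h1 _ _

/-- the class of the coefficient function -/
theorem BIJ_bd (hSMA : SMA_stmt) (hDMP : DMP_stmt) (B : BS) (M : ℕ → ℕ → ℕ → ℕ) [CompactSpace ↥(XS B)] (α : ↥(XS B) ≃ₜ ↥(XS B)) (A : Type) [CStarAlgebra A]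
    (ι : C(↥(XS B), ℂ) →⋆ₐ[ℂ] A) (u : unitary A) (c : ℤ → A →ₗ[ℂ] C(↥(XS B), ℂ)) (hC : CPr B M α ι u c) (S : ℕ → Subalgebra ℂ A)
    (hS : IsSB B ι u c S) (m r r' : ℕ) (E : Matrix (Fin r) (Fin r) (S m)) (hE : E * E = E)
    (hw : k0map (S m).val.toRingHom (k0 E hE - r' • unitCls (S m)) = 0) :
    ∃ g : C(↥(XS B), ℂ), ∀ x, (∑ a, c 0 (E a a : A) x) - r' = g (α x) - g x := by
  obtain ⟨D, hD⟩ := hDMP ↥(XS B) α A ι u c hC.cov
  have hsm : ∀ a : S m, Sm ι u (a : A) := fun a => BIJ_smooth hSMA B A ι u c m a ((hS.mem m a).1 a.2)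
  have h1 : D (k0map (S m).val.toRingHom (k0 E hE)) = QuotientAddGroup.mk (∑ a, c 0 (E a a : A)) := by
    have e1 := hD (imap (S m).val.toRingHom ⟨Fintype.card (Fin r), E.submatrix (Fintype.equivFin (Fin r)).symm (Fintype.equivFin (Fin r)).symm, by
      rw [Matrix.submatrix_mul_equiv, hE]⟩) (fun i j => hsm _)
    have e2 : ∑ i : Fin (Fintype.card (Fin r)), c 0 (E ((Fintype.equivFin (Fin r)).symm i) ((Fintype.equivFin (Fin r)).symm i) : A) =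
        ∑ a, c 0 (E a a : A) := Equiv.sum_comp (Fintype.equivFin (Fin r)).symm (fun a => c 0 (E a a : A))
    rw [← e2]
    exact e1
  have h2 : D (k0map (S m).val.toRingHom (unitCls (S m))) = QuotientAddGroup.mk (1 : C(↥(XS B), ℂ)) := by
    have e1 := hD (imap (S m).val.toRingHom ⟨1, 1, one_mul 1⟩) (fun i j => hsm _)
    have e2 : c 0 (1 : A) = 1 := by
      have := hC.cov.cval 0 0 1
      rw [if_pos rfl, map_one, one_mul] at this
      unfold up at this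
      rw [zpow_zero] at this
      exact this
    have e3 : ∑ i : Fin 1, c 0 ((((1 : Matrix (Fin 1) (Fin 1) (S m)) i i : S m)) : A) = (1 : C(↥(XS B), ℂ)) := by
      rw [Fin.sum_univ_one, Matrix.one_apply_eq]
      exact e2
    rw [← e3]
    exact e1
  have h3 := congrArg D hw
  rw [map_sub, map_nsmul, map_sub, map_nsmul, h1, h2, map_zero] at h3
  have h4 : (QuotientAddGroup.mk ((∑ a, c 0 (E a a : A)) - r' • (1 : C(↥(XS B), ℂ))) : C(↥(XS B), ℂ) ⧸ Bd α) = 0 := h3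
  rw [QuotientAddGroup.eq_zero_iff] at h4
  obtain ⟨g, hg⟩ := h4
  refine ⟨g, fun x => ?_⟩
  rw [← hg x]
  simp [ContinuousMap.sub_apply]

theorem BIJ (hBTF : BTF_stmt) (hBLS : BLS_stmt) (hBXS : BXS_stmt) (hSUC : SUC_stmt) (hSUZ : SUZ_stmt) (hLPX : LPX_stmt) (hXSU : XSU_stmt) (hDMP : DMP_stmt) (hSMA : SMA_stmt) : BIJ_stmt := by
  intro B M _ α A _ ι u c hC S hS m R hR w hw
  obtain ⟨r, r', E, hE, T, hwE, hTc, hTx, hTs⟩ := hBTF B M α A ι u c hC S hS m R hR w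
  rw [hwE] at hw
  obtain ⟨g, hg⟩ := BIJ_bd hSMA hDMP B M α A ι u c hC S hS m r r' E hE hw
  have hT : ∀ x : ↥(XS B), T (x.1 m) = g (α x) - g x := fun x => by rw [hTx, hg]
  obtain ⟨xs, -, -, hxs⟩ := hBXS B M α hC.bs hC.al hC.ali
  have hW : {y : ↥(XS B) | ‖g y - g xs‖ < 1 / 2} ∈ 𝓝 xs := by
    have h1 : Continuous fun y : ↥(XS B) => ‖g y - g xs‖ := by fun_prop
    apply h1.continuousAt.eventually_lt_const
    simp
  obtain ⟨m₀, hm₀⟩ := hxs _ hW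
  refine ⟨m₀, fun v hv => ?_⟩
  have hlv := hC.bs.lv (m + m₀)
  have hvN : v < (B.L (m + m₀)).N := hv.trans_le hlv.nN
  have hpos : 0 < (B.L (m + m₀)).h v := hlv.pos v hvN
  have h0U : (0 : ℝ) ∈ U := ⟨le_rfl, zero_le_one⟩
  obtain ⟨x, hx⟩ := hXSU B M hC.bs (m + m₀) (emb (B.L (m + m₀)) v 0 0) ⟨v, 0, 0, hvN, h0U, hpos, rfl⟩
  have hcan : Can (B.L (m + m₀)) v 0 := ⟨hvN, Or.inl hv, h0U⟩
  have hxj : ∀ j : ℕ, j < (B.L (m + m₀)).h v → ((α ^ (j : ℤ)) x).1 (m + m₀) = emb (B.L (m + m₀)) v 0 j := by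
    intro j hj
    have h := hSUZ B M hC.bs α hC.al hC.ali x (m + m₀) v 0 0 hcan hpos hx (-(j : ℤ)) (by push_cast; omega) (by push_cast; omega)
    rw [neg_neg] at h
    rw [h]
    congr 1
    push_cast
    omega
  have hlp : ∀ j : ℕ, j < (B.L (m + m₀)).h v → ((α ^ (j : ℤ)) x).1 m = B.lp m m₀ v 0 j := fun j hj =>
    hLPX B M hC.bs ((α ^ (j : ℤ)) x) m m₀ v 0 j hvN h0U hj (hxj j hj)
  have hstep : ∀ j : ℤ, (α ^ (j + 1)) x = α ((α ^ j) x) := by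
    intro j
    rw [add_comm, zpow_add, zpow_one]
    rfl
  have hsum := hBLS B M hC.bs m T (R w) hTc hTs m₀ v 0 false hvN h0U
  have hWv : (B.L (m + m₀)).W v false = [v] := hlv.vtx v hv false
  rw [hWv, List.map_singleton, List.sum_singleton] at hsum
  have htel : ∑ j ∈ range ((B.L (m + m₀)).h v), T (B.lp m m₀ v 0 j) = g ((α ^ (((B.L (m + m₀)).h v : ℕ) : ℤ)) x) - g x := by
    have e1 : ∀ j ∈ range ((B.L (m + m₀)).h v), T (B.lp m m₀ v 0 j) =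
        g ((α ^ (((j + 1 : ℕ) : ℕ) : ℤ)) x) - g ((α ^ ((j : ℕ) : ℤ)) x) := by
      intro j hj
      rw [← hlp j (Finset.mem_range.1 hj), hT]
      push_cast
      rw [hstep]
    rw [Finset.sum_congr rfl e1, Finset.sum_range_sub (fun j : ℕ => g ((α ^ (j : ℤ)) x))]
    rfl
  rw [htel] at hsum
  have hend : ∃ e' s', Can (B.L (m + m₀)) e' s' ∧ ((α ^ (((B.L (m + m₀)).h v : ℕ) : ℤ)) x).1 (m + m₀) = emb (B.L (m + m₀)) e' s' 0 := by
    obtain ⟨H, hH⟩ : ∃ H, (B.L (m + m₀)).h v = H + 1 := ⟨(B.L (m + m₀)).h v - 1, by omega⟩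
    have h1 := (hSUC B M hC.bs α hC.al hC.ali ((α ^ (H : ℤ)) x) (m + m₀) v 0 H hcan (by omega) (hxj H (by omega))).2.1 hH.symm
    rw [hH]
    push_cast
    rw [hstep]
    exact h1
  obtain ⟨e', s', hcan', hend'⟩ := hend
  have hw1 := hm₀ (m + m₀) (by omega) x v 0 hvN h0U hx
  have hw2 := hm₀ (m + m₀) (by omega) ((α ^ (((B.L (m + m₀)).h v : ℕ) : ℤ)) x) e' s' hcan'.1 hcan'.2.2 hend'
  have hlt : ‖g ((α ^ (((B.L (m + m₀)).h v : ℕ) : ℤ)) x) - g x‖ < 1 := by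
    have e1 : g ((α ^ (((B.L (m + m₀)).h v : ℕ) : ℤ)) x) - g x =
        (g ((α ^ (((B.L (m + m₀)).h v : ℕ) : ℤ)) x) - g xs) - (g x - g xs) := by ring
    rw [e1]
    refine (norm_sub_le _ _).trans_lt ?_
    have a1 : ‖g x - g xs‖ < 1 / 2 := hw1
    have a2 : ‖g ((α ^ (((B.L (m + m₀)).h v : ℕ) : ℤ)) x) - g xs‖ < 1 / 2 := hw2
    linarith
  rw [hsum, Complex.norm_intCast] at hlt
  have h5 : |MZ B M m (R w) m₀ v| < 1 := by exact_mod_cast hlt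
  exact Int.abs_lt_one_iff.mp h5

end Pool.Agent.BND
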