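import Pool.Agent.helper77.BND.SpecB

/-!
# bnd, row BLF: functions of the levels are dense
-/

set_option autoImplicit false

open scoped Topology Matrix
open Filter Finset

namespace Pool.Agent.BND

open Pool.Agent.CZ Pool.Agent.PV

theorem BLF_p (B : BS) (p : ℕ → Am → Am) (hp : IsMp B B.st p) (x : ↥(XS B)) (m : ℕ) : p m (x.1 (m + 1)) = x.1 m := by
  obtain ⟨e, s, i, he, hs, hi, h⟩ := (x.2 (m + 1)).1
  rw [h, hp.val m e s i he hs hi]
  exact ((x.2 m).2 e s i he hs hi h).symm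

theorem BLF_raise (B : BS) (p : ℕ → Am → Am) (hp : IsMp B B.st p) (m d : ℕ) (F : Am → ℂ) (hF : ContinuousOn F (FS (B.L m))) :
    ∃ F' : Am → ℂ, ContinuousOn F' (FS (B.L (m + d))) ∧ ∀ x : ↥(XS B), F (x.1 m) = F' (x.1 (m + d)) := by
  induction d with
  | zero => exact ⟨F, hF, fun x => rfl⟩
  | succ d ih =>
    obtain ⟨F', hF', h⟩ := ih
    refine ⟨fun y => F' (p (m + d) y), hF'.comp (hp.cont (m + d)) (hp.maps (m + d)), fun x => ?_⟩
    rw [h x, ← BLF_p B p hp x (m + d)]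
    rfl

theorem BLF_raise' (B : BS) (p : ℕ → Am → Am) (hp : IsMp B B.st p) (m m' : ℕ) (hm : m ≤ m') (F : Am → ℂ) (hF : ContinuousOn F (FS (B.L m))) :
    ∃ F' : Am → ℂ, ContinuousOn F' (FS (B.L m')) ∧ ∀ x : ↥(XS B), F (x.1 m) = F' (x.1 m') := by
  obtain ⟨d, rfl⟩ := Nat.exists_eq_add_of_le hm
  exact BLF_raise B p hp m d F hF

/-- the functions of the levels -/
def BLF_S (B : BS) (p : ℕ → Am → Am) (hp : IsMp B B.st p) : StarSubalgebra ℂ C(↥(XS B), ℂ) where
  carrier := {g | ∃ (m : ℕ) (F : Am → ℂ), ContinuousOn F (FS (B.L m)) ∧ ∀ x : ↥(XS B), g x = F (x.1 m)}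
  mul_mem' := by
    rintro g g' ⟨m, F, hF, h⟩ ⟨m', F', hF', h'⟩
    obtain ⟨F1, hF1, h1⟩ := BLF_raise' B p hp m (max m m') (le_max_left _ _) F hF
    obtain ⟨F2, hF2, h2⟩ := BLF_raise' B p hp m' (max m m') (le_max_right _ _) F' hF'
    refine ⟨max m m', fun y => F1 y * F2 y, hF1.mul hF2, fun x => ?_⟩
    rw [ContinuousMap.mul_apply, h, h', h1, h2]
  add_mem' := by
    rintro g g' ⟨m, F, hF, h⟩ ⟨m', F', hF', h'⟩
    obtain ⟨F1, hF1, h1⟩ := BLF_raise' B p hp m (max m m') (le_max_left _ _) F hF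
    obtain ⟨F2, hF2, h2⟩ := BLF_raise' B p hp m' (max m m') (le_max_right _ _) F' hF'
    refine ⟨max m m', fun y => F1 y + F2 y, hF1.add hF2, fun x => ?_⟩
    rw [ContinuousMap.add_apply, h, h', h1, h2]
  algebraMap_mem' := by
    intro r
    exact ⟨0, fun _ => r, continuousOn_const, fun x => rfl⟩
  star_mem' := by
    rintro g ⟨m, F, hF, h⟩
    refine ⟨m, fun y => star (F y), hF.star, fun x => ?_⟩
    rw [ContinuousMap.star_apply, h]

theorem BLF (hPMA : PMA_stmt) (hXCP : XCP_stmt) : BLF_stmt := by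
  have _h := hXCP
  intro B M _ hB f ε hε
  obtain ⟨p, _, _, hp, -, -⟩ := hPMA B M hB
  have hsep : (BLF_S B p hp).SeparatesPoints := by
    intro x y hxy
    have h1 : x.1 ≠ y.1 := fun h => hxy (Subtype.ext h)
    obtain ⟨m, hm⟩ := Function.ne_iff.mp h1
    obtain ⟨c, hc⟩ := Function.ne_iff.mp hm
    have hcont : Continuous (fun z : ↥(XS B) => z.1 m c) :=
      (continuous_apply c).comp ((continuous_apply m).comp continuous_subtype_val)
    refine ⟨_, ⟨⟨fun z => z.1 m c, hcont⟩, ⟨m, fun y => y c, (continuous_apply c).continuousOn, fun z => rfl⟩, rfl⟩, hc⟩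
  have htop := ContinuousMap.starSubalgebra_topologicalClosure_eq_top_of_separatesPoints (BLF_S B p hp) hsep
  have hf : f ∈ (BLF_S B p hp).topologicalClosure := by
    rw [htop]
    exact StarSubalgebra.mem_top
  have hf2 : f ∈ closure ((BLF_S B p hp : StarSubalgebra ℂ C(↥(XS B), ℂ)) : Set C(↥(XS B), ℂ)) := by
    rw [← StarSubalgebra.topologicalClosure_coe]
    exact hf
  obtain ⟨g, ⟨m, F, hF, hg⟩, hfg⟩ := Metric.mem_closure_iff.mp hf2 ε hε
  refine ⟨m, fun m' hm' => ?_⟩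
  obtain ⟨F', hF', h'⟩ := BLF_raise' B p hp m m' hm' F hF
  refine ⟨F', hF', fun x => ?_⟩
  rw [← h' x, ← hg x, ← dist_eq_norm]
  exact (ContinuousMap.dist_apply_le_dist x).trans hfg.le

end Pool.Agent.BND
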