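import Pool.Agent.helper77.BND.SpecB

set_option autoImplicit false

open scoped Topology Matrix
open Filter Finset

namespace Pool.Agent.BND

open Pool.Agent.CZ Pool.Agent.PV

theorem BOB_fl (h : ℕ → ℕ) : ∀ (w : List ℕ) (i : ℕ), i + 1 = (w.map h).sum →
    (fl h w i).1 ∈ w ∧ (fl h w i).2 + 1 = h (fl h w i).1 := by
  intro w
  induction w with
  | nil => intro i hi; simp at hi
  | cons a w ih =>
    intro i hi
    rw [List.map_cons, List.sum_cons] at hi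
    unfold fl
    split_ifs with hlt
    · refine ⟨List.mem_cons_self, ?_⟩
      show i + 1 = h a
      omega
    · obtain ⟨h1, h2⟩ := ih (i - h a) (by omega)
      exact ⟨List.mem_cons_of_mem _ h1, h2⟩

theorem BOB_in (B : BS) (M : ℕ → ℕ → ℕ → ℕ) [CompactSpace ↥(XS B)] (α : ↥(XS B) ≃ₜ ↥(XS B)) (A : Type) [CStarAlgebra A]
    (ι : C(↥(XS B), ℂ) →⋆ₐ[ℂ] A) (u : unitary A) (c : ℤ → A →ₗ[ℂ] C(↥(XS B), ℂ)) (h : CPr B M α ι u c) (m : ℕ)
    (f : C(↥(XS B), ℂ)) (k : ℤ) (hk : -1 ≤ k ∧ k ≤ 1) (hl : ∀ x y : ↥(XS B), x.1 m = y.1 m → f x = f y)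
    (hv : ∀ (x : ↥(XS B)) (e : ℕ) (s : ℝ) (i : ℕ), e < (B.L m).N → s ∈ U → i < (B.L m).h e → x.1 m = emb (B.L m) e s i →
      ¬ (0 ≤ (i : ℤ) - k ∧ (i : ℤ) - k < (B.L m).h e) → f x = 0) : InS B ι u c m (ι f * up u k) := by
  refine ⟨fun n x y hxy => ?_, fun n x e s i he hs hi hx hn => ?_, fun H hH => ?_⟩
  · rw [h.cov.cval]
    split_ifs
    · exact hl x y hxy
    · rfl
  · rw [h.cov.cval]
    split_ifs with hnk
    · subst hnk
      exact hv x e s i he hs hi hx hn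
    · rfl
  · have hN : 0 < (B.L m).N := lt_of_lt_of_le (h.bs.lv m).n0 (h.bs.lv m).nN
    have h1 : 1 ≤ H := le_trans ((h.bs.lv m).pos 0 hN) (hH 0 hN)
    rw [Finset.sum_eq_single k]
    · rw [h.cov.cval, if_pos rfl]
    · intro n _ hn
      rw [h.cov.cval, if_neg hn, map_zero, zero_mul]
    · intro hk'
      exact absurd (Finset.mem_Icc.2 ⟨by omega, by omega⟩) hk'

/-- the cut-off -/
noncomputable def BOB_t (ε : ℝ) (z : ℂ) : ℂ := z - z * ((ε / max ‖z‖ ε : ℝ) : ℂ)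

theorem BOB_t1 (ε : ℝ) (hε : 0 < ε) : Continuous (BOB_t ε) := by
  unfold BOB_t
  refine continuous_id.sub (continuous_id.mul (Complex.continuous_ofReal.comp ?_))
  exact continuous_const.div (continuous_norm.max continuous_const) fun z => ne_of_gt (lt_max_of_lt_right hε)

theorem BOB_t2 (ε : ℝ) (hε : 0 < ε) (z : ℂ) : ‖BOB_t ε z - z‖ ≤ ε := by
  have h0 : 0 < max ‖z‖ ε := lt_max_of_lt_right hε
  unfold BOB_t
  rw [sub_sub_cancel_left, norm_neg, norm_mul, Complex.norm_real, Real.norm_of_nonneg (div_nonneg hε.le h0.le),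
    mul_div_assoc', div_le_iff₀ h0, mul_comm ε]
  exact mul_le_mul_of_nonneg_right (le_max_left _ _) hε.le

theorem BOB_t3 (ε : ℝ) (hε : 0 < ε) (z : ℂ) (hz : ‖z‖ ≤ ε) : BOB_t ε z = 0 := by
  unfold BOB_t
  rw [max_eq_right hz, div_self hε.ne', Complex.ofReal_one, mul_one, sub_self]

/-- the floors next to the ends: `(α x) m` for `x` on a top floor is a floor 0 -/
theorem BOB_top (hEME : EME_stmt) (hSUC : SUC_stmt) (B : BS) (M : ℕ → ℕ → ℕ → ℕ) (hb : IsBS B M) (α : ↥(XS B) ≃ₜ ↥(XS B)) (ha : IsAl B α)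
    (hi : IsAlI B α) (x : ↥(XS B)) (m e : ℕ) (s : ℝ) (i : ℕ) (he : e < (B.L m).N) (hs : s ∈ U) (h1 : i + 1 = (B.L m).h e)
    (hx : x.1 m = emb (B.L m) e s i) : ∃ e' s', e' < (B.L m).N ∧ s' ∈ U ∧ (α x).1 m = emb (B.L m) e' s' 0 := by
  have hv := hb.lv m
  by_cases hc : Can (B.L m) e s
  · obtain ⟨e', s', hc', hx'⟩ := (hSUC B M hb α ha hi x m e s i hc (by omega) hx).2.1 h1
    exact ⟨e', s', hc'.1, hc'.2.2, hx'⟩
  · have hn : ¬ (e < (B.L m).n) := fun hlt => hc ⟨he, Or.inl hlt, hs⟩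
    have hs' : ∃ b : Bool, s = if b then 1 else 0 := by
      by_cases h0 : 0 < s
      · by_cases h2 : s < 1
        · exact absurd ⟨he, Or.inr ⟨h0, h2⟩, hs⟩ hc
        · exact ⟨true, by simpa using le_antisymm hs.2 (not_lt.1 h2)⟩
      · exact ⟨false, by simpa using le_antisymm (not_lt.1 h0) hs.1⟩
    obtain ⟨b, rfl⟩ := hs'
    obtain ⟨h2, h3⟩ := BOB_fl (B.L m).h ((B.L m).W e b) i (by rw [hv.ht e he b]; exact h1)
    have h4 : (fl (B.L m).h ((B.L m).W e b) i).1 < (B.L m).n := hv.mem e he b _ h2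
    have h5 : Can (B.L m) (fl (B.L m).h ((B.L m).W e b) i).1 0 :=
      ⟨lt_of_lt_of_le h4 hv.nN, Or.inl h4, le_refl _, zero_le_one⟩
    rw [(hEME (B.L m) hv).1 e i b he (by omega)] at hx
    obtain ⟨e', s', hc', hx'⟩ := (hSUC B M hb α ha hi x m _ 0 _ h5 (by omega) hx).2.1 h3
    exact ⟨e', s', hc'.1, hc'.2.2, hx'⟩

theorem BOB (hBXS : BXS_stmt) (hBLF : BLF_stmt) (hBFX : BFX_stmt) (hBFE : BFE_stmt) (hBDM : BDM_stmt) (hEME : EME_stmt) (hSUC : SUC_stmt)
    (hBLK : BLK_stmt) : BOB_stmt := by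
  intro B M _ α A _ ι u c h S hS xs hxs
  have hdir : Directed (· ≤ ·) S := hS.mono.directed_le
  have hcl : (((⨆ m, S m).topologicalClosure : Subalgebra ℂ A) : Set A) = closure (⋃ m, (S m : Set A)) := by
    rw [Subalgebra.topologicalClosure_coe, Subalgebra.coe_iSup_of_directed hdir]
  -- functions of the level `m`
  have hfm : ∀ (m : ℕ) (F : Am → ℂ), ContinuousOn F (FS (B.L m)) → ∃ f : C(↥(XS B), ℂ), ∀ x, f x = F (x.1 m) := by
    intro m F hF
    refine ⟨⟨fun x => F (x.1 m), ?_⟩, fun x => rfl⟩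
    exact hF.comp_continuous ((continuous_apply m).comp continuous_subtype_val) fun x => (x.2 m).1
  have hup0 : up u 0 = 1 := by unfold up; rw [zpow_zero]; rfl
  have hup1 : up u 1 = (u : A) := by unfold up; rw [zpow_one]
  have hupm : up u (-1) = star (u : A) := by
    unfold up
    rw [zpow_neg_one]
    rfl
  have huu : star (u : A) * (u : A) = 1 := Unitary.coe_star_mul_self u
  have huu' : (u : A) * star (u : A) = 1 := Unitary.coe_mul_star_self u
  have hcv : ∀ f : C(↥(XS B), ℂ), star (u : A) * ι f = ι (f.comp (α : C(↥(XS B), ↥(XS B)))) * up u (-1) := by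
    intro f
    have h1 := h.cov.cov (f.comp (α : C(↥(XS B), ↥(XS B))))
    have h2 : (f.comp (α : C(↥(XS B), ↥(XS B)))).comp (α.symm : C(↥(XS B), ↥(XS B))) = f := by
      ext x
      show f (α (α.symm x)) = f x
      rw [α.apply_symm_apply]
    rw [h2] at h1
    rw [← h1, hupm, ← mul_assoc, ← mul_assoc, huu, one_mul]
  have hnu : ∀ a : A, ‖a * (u : A)‖ = ‖a‖ := fun a => CStarRing.norm_mul_coe_unitary a u
  have hnu' : ∀ a : A, ‖star (u : A) * a‖ = ‖a‖ := fun a => by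
    have h1 := CStarRing.norm_coe_unitary_mul (star u) a
    rwa [Unitary.coe_star] at h1
  have hιn : ∀ f : C(↥(XS B), ℂ), ‖ι f‖ ≤ ‖f‖ := fun f => NonUnitalStarAlgHom.norm_apply_le ι f
  have hxu : ∀ W ∈ 𝓝 xs, ∃ m₀, ∀ m, m₀ ≤ m →
      ∀ (x : ↥(XS B)) (e : ℕ) (s : ℝ), e < (B.L m).N → s ∈ U → x.1 m = emb (B.L m) e s 0 → x ∈ W := by
    obtain ⟨ys, hys, _, h3⟩ := hBXS B M α h.bs h.al h.ali
    have : ys = xs := Subtype.ext (funext fun m => by rw [hys, hxs])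
    rwa [this] at h3
  have hap : ∀ f : C(↥(XS B), ℂ), (∀ᶠ x in 𝓝 xs, f x = 0) → ∀ ε : ℝ, 0 < ε → ∃ (m : ℕ) (F : Am → ℂ) (g : C(↥(XS B), ℂ)),
      (∀ x, g x = F (x.1 m)) ∧ (∀ (x : ↥(XS B)) (e : ℕ) (s : ℝ), e < (B.L m).N → s ∈ U → x.1 m = emb (B.L m) e s 0 → g x = 0) ∧
      ‖f - g‖ < ε := by
    intro f hf ε hε
    have hε4 : 0 < ε / 4 := by linarith
    obtain ⟨m₀, hm₀⟩ := hBLF B M h.bs f (ε / 4) hε4
    obtain ⟨m₁, hm₁⟩ := hxu {x | f x = 0} hf
    obtain ⟨F, hF, hF'⟩ := hm₀ (max m₀ m₁) (le_max_left _ _)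
    obtain ⟨g, hg⟩ := hfm (max m₀ m₁) (fun y => BOB_t (ε / 4) (F y)) ((BOB_t1 (ε / 4) hε4).comp_continuousOn hF)
    refine ⟨max m₀ m₁, fun y => BOB_t (ε / 4) (F y), g, hg, fun x e s he hs hx => ?_, ?_⟩
    · rw [hg x]
      refine BOB_t3 (ε / 4) hε4 _ ?_
      have h1 : f x = 0 := hm₁ (max m₀ m₁) (le_max_right _ _) x e s he hs hx
      have h2 := hF' x
      rwa [h1, zero_sub, norm_neg] at h2
    · refine lt_of_le_of_lt ((ContinuousMap.norm_le _ (by linarith : (0 : ℝ) ≤ ε / 2)).2 fun x => ?_) (half_lt_self hε)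
      rw [ContinuousMap.sub_apply, hg x]
      have h1 := hF' x
      have h2 := BOB_t2 (ε / 4) hε4 (F (x.1 (max m₀ m₁)))
      calc ‖f x - BOB_t (ε / 4) (F (x.1 (max m₀ m₁)))‖
          = ‖(f x - F (x.1 (max m₀ m₁))) - (BOB_t (ε / 4) (F (x.1 (max m₀ m₁))) - F (x.1 (max m₀ m₁)))‖ := by
            rw [sub_sub_sub_cancel_right]
        _ ≤ ‖f x - F (x.1 (max m₀ m₁))‖ + ‖BOB_t (ε / 4) (F (x.1 (max m₀ m₁))) - F (x.1 (max m₀ m₁))‖ := norm_sub_le _ _
        _ ≤ ε / 2 := by linarith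
  refine ⟨(⨆ m, S m).topologicalClosure, hcl, ?_, fun f => ?_, fun f hf => ?_, fun f hf => ?_⟩
  · rw [hcl]
    exact isClosed_closure
  · show ι f ∈ (((⨆ m, S m).topologicalClosure : Subalgebra ℂ A) : Set A)
    rw [hcl, Metric.mem_closure_iff]
    intro ε hε
    obtain ⟨m₀, hm₀⟩ := hBLF B M h.bs f (ε / 2) (half_pos hε)
    obtain ⟨F, hF, hF'⟩ := hm₀ m₀ le_rfl
    obtain ⟨g, hg⟩ := hfm m₀ F hF
    refine ⟨ι g, Set.mem_iUnion.2 ⟨m₀, (hS.mem m₀ _).2 ?_⟩, ?_⟩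
    · have h1 := BOB_in B M α A ι u c h m₀ g 0 ⟨by norm_num, by norm_num⟩ (fun x y hxy => by rw [hg, hg, hxy])
        (fun x e s i he hs hi hx hn => absurd ⟨by omega, by omega⟩ hn)
      rwa [hup0, mul_one] at h1
    · rw [dist_eq_norm, ← map_sub]
      refine lt_of_le_of_lt (hιn _) (lt_of_le_of_lt ?_ (half_lt_self hε))
      exact (ContinuousMap.norm_le _ (half_pos hε).le).2 fun x => by
        rw [ContinuousMap.sub_apply, hg]
        exact hF' x
  · show ι f * (u : A) ∈ (((⨆ m, S m).topologicalClosure : Subalgebra ℂ A) : Set A)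
    rw [hcl, Metric.mem_closure_iff]
    intro ε hε
    obtain ⟨m, F, g, hg, hg0, hfg⟩ := hap f hf ε hε
    refine ⟨ι g * (u : A), Set.mem_iUnion.2 ⟨m, (hS.mem m _).2 ?_⟩, ?_⟩
    · have h1 := BOB_in B M α A ι u c h m g 1 ⟨by norm_num, by norm_num⟩ (fun x y hxy => by rw [hg, hg, hxy])
        (fun x e s i he hs hi hx hn => by
          have hi0 : i = 0 := by
            by_contra hne
            exact hn ⟨by omega, by omega⟩
          subst hi0
          exact hg0 x e s he hs hx)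
      rwa [hup1] at h1
    · rw [dist_eq_norm, ← sub_mul, ← map_sub, hnu]
      exact lt_of_le_of_lt (hιn _) hfg
  · show star (u : A) * ι f ∈ (((⨆ m, S m).topologicalClosure : Subalgebra ℂ A) : Set A)
    rw [hcl, Metric.mem_closure_iff]
    intro ε hε
    obtain ⟨m, F, g, hg, hg0, hfg⟩ := hap f hf ε hε
    refine ⟨star (u : A) * ι g, Set.mem_iUnion.2 ⟨m, (hS.mem m _).2 ?_⟩, ?_⟩
    · rw [hcv]
      refine BOB_in B M α A ι u c h m _ (-1) ⟨by norm_num, by norm_num⟩ (fun x y hxy => ?_)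
        (fun x e s i he hs hi hx hn => ?_)
      · show g (α x) = g (α y)
        obtain ⟨e, s, i, hc, hi, hx, _⟩ := hBLK B M h.bs α h.al h.ali x m
        have hy : y.1 m = emb (B.L m) e s i := by rw [← hxy, hx]
        by_cases h1 : i + 1 < (B.L m).h e
        · rw [hg, hg, (hSUC B M h.bs α h.al h.ali x m e s i hc hi hx).1 h1, (hSUC B M h.bs α h.al h.ali y m e s i hc hi hy).1 h1]
        · have h2 : i + 1 = (B.L m).h e := by omega
          obtain ⟨e', s', he', hs', hx'⟩ := BOB_top hEME hSUC B M h.bs α h.al h.ali x m e s i hc.1 hc.2.2 h2 hx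
          obtain ⟨e'', s'', he'', hs'', hy'⟩ := BOB_top hEME hSUC B M h.bs α h.al h.ali y m e s i hc.1 hc.2.2 h2 hy
          rw [hg0 (α x) e' s' he' hs' hx', hg0 (α y) e'' s'' he'' hs'' hy']
      · show g (α x) = 0
        have h2 : i + 1 = (B.L m).h e := by
          by_contra hne
          exact hn ⟨by omega, by omega⟩
        obtain ⟨e', s', he', hs', hx'⟩ := BOB_top hEME hSUC B M h.bs α h.al h.ali x m e s i he hs h2 hx
        exact hg0 (α x) e' s' he' hs' hx'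
    · rw [dist_eq_norm, ← mul_sub, ← map_sub, hnu']
      exact lt_of_le_of_lt (hιn _) hfg

end Pool.Agent.BND
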