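import Pool.Agent.helper77.BND.SpecF

set_option autoImplicit false

open scoped Topology Matrix
open Filter Finset

namespace Pool.Agent.BND

open Pool.Agent.CZ Pool.Agent.PV Pool.Agent.PVH

theorem FRK : FRK_stmt := by
  intro G₀ _ g H htf hr x y
  obtain ⟨n, k, hn, hx⟩ := hr x
  obtain ⟨m, l, hm, hy⟩ := hr y
  by_cases hk : k = 0
  · have h1 : (x : G₀) = 0 := htf n x hn x.2 (by rw [hx, hk, zero_smul])
    refine ⟨1, 0, Or.inl one_ne_zero, ?_⟩
    have h2 : x = 0 := Subtype.ext h1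
    rw [h2, smul_zero, zero_smul]
  · refine ⟨l * n, k * m, Or.inr (mul_ne_zero hk (Nat.cast_ne_zero.2 hm)), Subtype.ext ?_⟩
    show (l * (n : ℤ)) • (x : G₀) = (k * (m : ℤ)) • (y : G₀)
    rw [mul_smul, mul_smul, natCast_zsmul, natCast_zsmul, hx, hy, smul_smul, smul_smul, mul_comm]

end Pool.Agent.BND
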