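import Pool.Agent.helper72.BND.SpecS

/-!
# Project bnd (MP_376aaf_an), block H: the lattices
-/

set_option autoImplicit false

open Finset

namespace Pool.Agent.BND

theorem LAT_tf (H : Type) [AddCommGroup H] (H' : AddSubgroup H) (hp : ∀ (n : ℕ) (x : H), 1 ≤ n → n • x ∈ H' → x ∈ H') :
    Module.IsTorsionFree ℤ (H ⧸ H') := by
  refine ⟨fun r hr => ?_⟩
  have hr0 : r ≠ 0 := by
    rintro rfl
    have h1 := hr.1 (show (0 : ℤ) * 0 = 0 * 1 by ring)
    exact absurd h1 (by norm_num)
  intro x y hxy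
  have h1 : r • (x - y) = 0 := by
    rw [smul_sub, sub_eq_zero]
    exact hxy
  obtain ⟨h, hh⟩ := QuotientAddGroup.mk'_surjective H' (x - y)
  have h2 : QuotientAddGroup.mk' H' (r • h) = 0 := by
    rw [map_zsmul, hh, h1]
  have h3 : r • h ∈ H' := (QuotientAddGroup.eq_zero_iff _).1 h2
  have h4 : r.natAbs • h ∈ H' := by
    rcases Int.natAbs_eq r with h5 | h5
    · rw [h5, natCast_zsmul] at h3
      exact h3
    · rw [h5, neg_smul, natCast_zsmul] at h3
      exact (AddSubgroup.neg_mem_iff H').1 h3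
  have h5 : h ∈ H' := hp r.natAbs h (Nat.one_le_iff_ne_zero.2 (Int.natAbs_ne_zero.2 hr0)) h4
  have h6 : x - y = 0 := by
    rw [← hh]
    exact (QuotientAddGroup.eq_zero_iff _).2 h5
  exact sub_eq_zero.1 h6

theorem LAT : LAT_stmt := by
  intro H _ H' hp n th
  have htf : Module.IsTorsionFree ℤ (H ⧸ H') := LAT_tf H H' hp
  let Θ : (Fin n → ℤ) →ₗ[ℤ] (H ⧸ H') :=
    { toFun := fun z => QuotientAddGroup.mk' H' (∑ v, z v • th v)
      map_add' := fun z w => by
        rw [← map_add]
        congr 1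
        simp only [Pi.add_apply, add_smul, Finset.sum_add_distrib]
      map_smul' := fun r z => by
        simp only [RingHom.id_apply]
        rw [← map_zsmul]
        congr 1
        simp only [Pi.smul_apply, smul_eq_mul, mul_smul, Finset.smul_sum] }
  have hΘ : ∀ z, Θ z = 0 ↔ ∑ v, z v • th v ∈ H' := fun z => QuotientAddGroup.eq_zero_iff _
  have htf' : Module.IsTorsionFree ℤ (LinearMap.range Θ) := inferInstance
  have hfree : Module.Free ℤ (LinearMap.range Θ) := inferInstance
  let b := Module.finBasis ℤ (LinearMap.range Θ)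
  let k := Module.finrank ℤ (LinearMap.range Θ)
  let Φ : (Fin n → ℤ) →ₗ[ℤ] (Fin k → ℤ) := (b.equivFun : LinearMap.range Θ →ₗ[ℤ] (Fin k → ℤ)).comp Θ.rangeRestrict
  have hΦ0 : ∀ z, Φ z = 0 ↔ ∑ v, z v • th v ∈ H' := by
    intro z
    rw [← hΘ]
    constructor
    · intro h
      have h1 : Θ.rangeRestrict z = 0 := b.equivFun.map_eq_zero_iff.1 h
      have h2 := congrArg Subtype.val h1
      exact h2
    · intro h
      have h1 : Θ.rangeRestrict z = 0 := Subtype.ext h
      show b.equivFun (Θ.rangeRestrict z) = 0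
      rw [h1, map_zero]
  have hΦs : Function.Surjective Φ := fun y => by
    obtain ⟨z, hz⟩ := LinearMap.surjective_rangeRestrict Θ (b.equivFun.symm y)
    refine ⟨z, ?_⟩
    show b.equivFun (Θ.rangeRestrict z) = y
    rw [hz, LinearEquiv.apply_symm_apply]
  have hΦe : ∀ (z : Fin n → ℤ) (j : Fin k), Φ z j = ∑ v, z v * Φ (Pi.single v 1) j := by
    intro z j
    have h1 : z = ∑ v, z v • (Pi.single v 1 : Fin n → ℤ) := by
      ext w
      rw [Finset.sum_apply, Finset.sum_eq_single w]
      · simp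
      · intro v _ hv
        simp [Pi.single_apply, Ne.symm hv]
      · intro h
        exact absurd (Finset.mem_univ w) h
    have h2 : Φ z = ∑ v, z v • Φ (Pi.single v 1) := by
      conv_lhs => rw [h1]
      rw [map_sum]
      exact Finset.sum_congr rfl fun v _ => by rw [map_smul]
    rw [h2, Finset.sum_apply]
    exact Finset.sum_congr rfl fun v _ => by rw [Pi.smul_apply, smul_eq_mul]
  let c : ℕ → ℕ → ℤ := fun j v => if h : j < k ∧ v < n then Φ (Pi.single ⟨v, h.2⟩ 1) ⟨j, h.1⟩ else 0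
  have hc : ∀ (j : Fin k) (v : Fin n), c j v = Φ (Pi.single v 1) j := fun j v => by
    show (if h : (j : ℕ) < k ∧ (v : ℕ) < n then Φ (Pi.single ⟨v, h.2⟩ 1) ⟨j, h.1⟩ else 0) = _
    rw [dif_pos ⟨j.2, v.2⟩]
  have hsum : ∀ (z : ℕ → ℤ) (j : Fin k), ∑ v ∈ range n, c j v * z v = Φ (fun v : Fin n => z v) j := by
    intro z j
    rw [Finset.sum_range, hΦe]
    exact Finset.sum_congr rfl fun v _ => by rw [hc, mul_comm]
  have hmem : ∀ z : ℕ → ℤ, ∑ v ∈ range n, z v • th v ∈ H' ↔ ∀ j, j < k → ∑ v ∈ range n, c j v * z v = 0 := by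
    intro z
    rw [Finset.sum_range]
    refine (hΦ0 fun v : Fin n => z v).symm.trans ⟨fun h j hj => ?_, fun h => ?_⟩
    · rw [hsum z ⟨j, hj⟩, h]
      rfl
    · ext j
      rw [← hsum z j]
      exact h j j.2
  have hsurj : ∀ nn : ℕ → ℤ, ∃ z : ℕ → ℤ, ∀ j, j < k → ∑ v ∈ range n, c j v * z v = nn j := by
    intro nn
    obtain ⟨z, hz⟩ := hΦs fun j => nn j
    refine ⟨fun v => if h : v < n then z ⟨v, h⟩ else 0, fun j hj => ?_⟩
    rw [hsum _ ⟨j, hj⟩]
    have h1 : (fun v : Fin n => (fun v : ℕ => if h : v < n then z ⟨v, h⟩ else 0) (v : ℕ)) = z := by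
      ext v
      simp [v.2]
    rw [h1, hz]
  refine ⟨k, c, fun j v hv => ?_, hmem, hsurj, fun y hy => ?_⟩
  · show (if h : j < k ∧ v < n then Φ (Pi.single ⟨v, h.2⟩ 1) ⟨j, h.1⟩ else 0) = 0
    rw [dif_neg fun h => absurd h.2 (not_lt.2 hv)]
  · choose zz hzz using fun i : ℕ => hsurj fun j => if j = i then 1 else 0
    refine ⟨fun j => ∑ v ∈ range n, y v * zz j v, fun w hw => ?_⟩
    -- the vector `e_w - ∑ c j w • zz j`
    have h1 := hy (fun v => (if v = w then 1 else 0) - ∑ j ∈ range k, c j w * zz j v) ((hmem _).2 fun i hi => ?_)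
    · simp only [mul_sub, Finset.sum_sub_distrib, mul_ite, mul_one, mul_zero] at h1
      rw [Finset.sum_ite_eq' (range n) w, if_pos (Finset.mem_range.2 hw), sub_eq_zero] at h1
      rw [h1]
      simp_rw [Finset.mul_sum, Finset.sum_mul]
      rw [Finset.sum_comm]
      exact Finset.sum_congr rfl fun j _ => Finset.sum_congr rfl fun v _ => by ring
    · simp only [mul_sub, Finset.sum_sub_distrib, mul_ite, mul_one, mul_zero]
      rw [Finset.sum_ite_eq' (range n) w, if_pos (Finset.mem_range.2 hw), sub_eq_zero]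
      simp_rw [Finset.mul_sum]
      rw [Finset.sum_comm]
      have h2 : ∀ j ∈ range k, ∑ v ∈ range n, c i v * (c j w * zz j v) = c j w * (if i = j then 1 else 0) := by
        intro j _
        rw [← hzz j i hi, Finset.mul_sum]
        exact Finset.sum_congr rfl fun v _ => by ring
      rw [Finset.sum_congr rfl h2]
      simp only [mul_ite, mul_one, mul_zero]
      rw [Finset.sum_ite_eq (range k) i, if_pos (Finset.mem_range.2 hi)]

theorem LTR : LTR_stmt := by
  intro H _ H' n th k c hc n' th' k' c' hc' M hM j' hj'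
  refine hc.ann (fun v => ∑ v' ∈ range n', (M v' v : ℤ) * c' j' v') fun z hz => ?_
  have h1 : ∑ v' ∈ range n', (∑ v ∈ range n, (M v' v : ℤ) * z v) • th' v' ∈ H' := by
    have h2 : ∑ v' ∈ range n', (∑ v ∈ range n, (M v' v : ℤ) * z v) • th' v' = ∑ v ∈ range n, z v • th v := by
      simp_rw [Finset.sum_smul]
      rw [Finset.sum_comm]
      refine Finset.sum_congr rfl fun v hv => ?_
      rw [hM v (Finset.mem_range.1 hv), Finset.smul_sum]
      refine Finset.sum_congr rfl fun v' _ => ?_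
      rw [mul_comm, mul_smul, natCast_zsmul]
    rwa [h2]
  have h2 := (hc'.mem _).1 h1 j' hj'
  rw [← h2]
  simp_rw [Finset.sum_mul, Finset.mul_sum]
  rw [Finset.sum_comm]
  exact Finset.sum_congr rfl fun v' _ => Finset.sum_congr rfl fun v _ => by ring

end Pool.Agent.BND
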