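import Pool.Agent.helper53.BND.SpecL

set_option autoImplicit false

open scoped Topology Matrix
open Filter Finset

namespace Pool.Agent.BND

open Pool.Agent.CZ Pool.Agent.PV

theorem LGV_fl (h : ℕ → ℕ) : ∀ (w : List ℕ) (i : ℕ), i < (w.map h).sum → (fl h w i).1 ∈ w ∧ (fl h w i).2 < h (fl h w i).1 := by
  intro w
  induction w with
  | nil => intro i hi; simp at hi
  | cons a w ih =>
    intro i hi
    rw [List.map_cons, List.sum_cons] at hi
    unfold fl
    split_ifs with hlt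
    · exact ⟨List.mem_cons_self, hlt⟩
    · obtain ⟨h1, h2⟩ := ih (i - h a) (by omega)
      exact ⟨List.mem_cons_of_mem _ h1, h2⟩

theorem LGV (hBDM : BDM_stmt) : LGV_stmt := by
  intro l hl κ _ _ G hG
  classical
  let G' : κ → κ → ℕ → ℝ → ℕ → ℕ → ℂ := fun a b e s i j =>
    if h : i < l.h e ∧ j < l.h e then (mx l G e s)⁻¹ (a, ⟨i, h.1⟩) (b, ⟨j, h.2⟩) else 0
  have hmx : ∀ e s, mx l G' e s = (mx l G e s)⁻¹ := by
    intro e s
    ext p q
    show (if h : (p.2 : ℕ) < l.h e ∧ (q.2 : ℕ) < l.h e then (mx l G e s)⁻¹ (p.1, ⟨p.2, h.1⟩) (q.1, ⟨q.2, h.2⟩) else 0) = _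
    rw [dif_pos ⟨p.2.2, q.2.2⟩]
  have hinv : ∀ e s, e < l.N → s ∈ U → mx l G e s * mx l G' e s = 1 ∧ mx l G' e s * mx l G e s = 1 := by
    intro e s he hs
    have h1 : IsUnit (mx l G e s).det := isUnit_iff_ne_zero.2 (hG.det e s he hs)
    rw [hmx]
    exact ⟨Matrix.mul_nonsing_inv _ h1, Matrix.nonsing_inv_mul _ h1⟩
  have h0U : (0 : ℝ) ∈ U := ⟨le_refl _, zero_le_one⟩
  refine ⟨G', ⟨fun a b => ⟨?_, ?_, ?_⟩, ?_⟩, hinv⟩
  · -- continuity
    intro e i j he hi hj
    rw [continuousOn_iff_continuous_domRestrict]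
    have hc : Continuous fun s : U => mx l G e s := by
      refine continuous_pi fun p => continuous_pi fun q => ?_
      exact continuousOn_iff_continuous_domRestrict.1 ((hG.fm p.1 q.1).cont e p.2 q.2 he p.2.2 q.2.2)
    have h1 : U.domRestrict (fun s => G' a b e s i j) = fun s : U =>
        (mx l G e s).det⁻¹ * (mx l G e s).adjugate (a, ⟨i, hi⟩) (b, ⟨j, hj⟩) := by
      ext s
      show (if h : i < l.h e ∧ j < l.h e then (mx l G e s)⁻¹ (a, ⟨i, h.1⟩) (b, ⟨j, h.2⟩) else 0) = _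
      rw [dif_pos ⟨hi, hj⟩, Matrix.inv_def, Matrix.smul_apply, smul_eq_mul, Ring.inverse_eq_inv']
    rw [h1]
    refine Continuous.mul (Continuous.inv₀ hc.matrix_det fun s => hG.det e s he s.2) ?_
    exact hc.matrix_adjugate.matrix_elem _ _
  · -- vertices
    intro e s i j he hs hi hj
    have h1 : mx l G e s = mx l G e 0 := by
      ext p q
      exact (hG.fm p.1 q.1).vtx e s p.2 q.2 he hs p.2.2 q.2.2
    show (if h : i < l.h e ∧ j < l.h e then (mx l G e s)⁻¹ (a, ⟨i, h.1⟩) (b, ⟨j, h.2⟩) else 0) =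
      (if h : i < l.h e ∧ j < l.h e then (mx l G e 0)⁻¹ (a, ⟨i, h.1⟩) (b, ⟨j, h.2⟩) else 0)
    rw [h1]
  · -- ends
    intro e i j t he hi hj
    have hte : (if t then (1 : ℝ) else 0) ∈ U := by
      split_ifs
      · exact ⟨zero_le_one, le_refl _⟩
      · exact h0U
    have hu := hl.ht e he t
    let D : Matrix (κ × Fin (l.h e)) (κ × Fin (l.h e)) ℂ :=
      Matrix.of fun p q => bd l.h (l.W e t) (fun v => G' p.1 q.1 v 0) p.2 q.2
    have hD : mx l G e (if t then 1 else 0) * D = 1 := by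
      ext p q
      obtain ⟨a', i'⟩ := p
      obtain ⟨b', j'⟩ := q
      rw [Matrix.mul_apply, Fintype.sum_prod_type]
      have hi' : (i' : ℕ) < ((l.W e t).map l.h).sum := by rw [hu]; exact i'.2
      have hj' : (j' : ℕ) < ((l.W e t).map l.h).sum := by rw [hu]; exact j'.2
      have h1 : ∑ c : κ, ∑ k : Fin (l.h e), mx l G e (if t then 1 else 0) (a', i') (c, k) * D (c, k) (b', j') =
          ∑ c : κ, ∑ k ∈ range ((l.W e t).map l.h).sum, bd l.h (l.W e t) (fun v => G a' c v 0) i' k *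
            bd l.h (l.W e t) (fun v => G' c b' v 0) k j' := by
        refine Finset.sum_congr rfl fun c _ => ?_
        rw [hu, Finset.sum_range]
        refine Finset.sum_congr rfl fun k _ => ?_
        show G a' c e (if t then 1 else 0) i' k * _ = _
        rw [(hG.fm a' c).ends e i' k t he i'.2 k.2]
        rfl
      rw [h1, (hBDM l.h (l.W e t)).1 κ (fun c v => G a' c v 0) (fun c v => G' c b' v 0) i' j' hi' hj']
      have h2 : bd l.h (l.W e t) (fun v p q => ∑ c : κ, ∑ k ∈ range (l.h v), G a' c v 0 p k * G' c b' v 0 k q) i' j' =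
          (if a' = b' then 1 else 0) * bd l.h (l.W e t) (fun _ p q => if p = q then 1 else 0) i' j' := by
        by_cases h3 : fp l.h (l.W e t) i' = fp l.h (l.W e t) j'
        · unfold bd
          rw [if_pos h3, if_pos h3]
          obtain ⟨h5, h6⟩ := LGV_fl l.h (l.W e t) i' hi'
          obtain ⟨h7, h8⟩ := LGV_fl l.h (l.W e t) j' hj'
          have h9 := ((hBDM l.h (l.W e t)).2.2.2.1 i' j' hi' hj' h3).1
          have hv : (fl l.h (l.W e t) i').1 < l.n := hl.mem e he t _ h5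
          rw [← h9] at h8
          have h10 := (hinv (fl l.h (l.W e t) i').1 0 (lt_of_lt_of_le hv hl.nN) h0U).1
          have h11 := congrFun (congrFun h10 (a', ⟨(fl l.h (l.W e t) i').2, h6⟩)) (b', ⟨(fl l.h (l.W e t) j').2, h8⟩)
          rw [Matrix.mul_apply, Fintype.sum_prod_type, Matrix.one_apply] at h11
          have h12 : ∑ c : κ, ∑ k ∈ range (l.h (fl l.h (l.W e t) i').1), G a' c (fl l.h (l.W e t) i').1 0 (fl l.h (l.W e t) i').2 k *
              G' c b' (fl l.h (l.W e t) i').1 0 k (fl l.h (l.W e t) j').2 =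
              ∑ c : κ, ∑ k : Fin (l.h (fl l.h (l.W e t) i').1), mx l G (fl l.h (l.W e t) i').1 0 (a', ⟨(fl l.h (l.W e t) i').2, h6⟩) (c, k) *
                mx l G' (fl l.h (l.W e t) i').1 0 (c, k) (b', ⟨(fl l.h (l.W e t) j').2, h8⟩) :=
            Finset.sum_congr rfl fun c _ => Finset.sum_range _
          beta_reduce
          rw [h12, h11]
          simp only [Prod.mk.injEq, Fin.mk.injEq]
          split_ifs <;> simp_all
        · unfold bd
          rw [if_neg h3, if_neg h3, mul_zero]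
      rw [h2, (hBDM l.h (l.W e t)).2.2.1 i' j' hi' hj', Matrix.one_apply]
      simp only [Prod.mk.injEq, Fin.ext_iff]
      split_ifs <;> simp_all
    have h1 : (mx l G e (if t then 1 else 0))⁻¹ = D := Matrix.inv_eq_right_inv hD
    show (if h : i < l.h e ∧ j < l.h e then (mx l G e (if t then 1 else 0))⁻¹ (a, ⟨i, h.1⟩) (b, ⟨j, h.2⟩) else 0) = _
    rw [dif_pos ⟨hi, hj⟩, h1]
    rfl
  · intro e s he hs h0
    have h1 := congrArg Matrix.det (hinv e s he hs).1
    rw [Matrix.det_mul, h0, mul_zero, Matrix.det_one] at h1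
    exact zero_ne_one h1

end Pool.Agent.BND
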