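import Pool.Agent.helper53.BND.SpecL

set_option autoImplicit false

open scoped Topology Matrix
open Filter Finset

namespace Pool.Agent.BND

open Pool.Agent.CZ Pool.Agent.PV

theorem LI0 (hLIX : LIX_stmt) (hLKZ : LKZ_stmt) (hFUN : FUN_stmt) (hBSA : BSA_stmt) : LI0_stmt := by
  intro B M _ α A _ ι u c h Gs hG hi w
  obtain ⟨S, hS⟩ := hBSA B M α A ι u c h
  obtain ⟨m, w', hw⟩ := hLIX B M α A ι u c h S hS hi w
  have hle : S m ≤ S (m + 1) := hS.mono (Nat.le_succ m)
  have hc : Continuous (Subalgebra.inclusion hle).toRingHom :=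
    Continuous.subtype_mk continuous_subtype_val _
  rw [hw]
  have h3 := hFUN.2.2.2.2 (S m) (S (m + 1)) A (Subalgebra.inclusion hle).toRingHom (S (m + 1)).val.toRingHom hc
    continuous_subtype_val continuous_subtype_val w'
  rw [hLKZ B M α A ι u c h S hS Gs hG m hle hc w', map_zero] at h3
  exact h3

end Pool.Agent.BND
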