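import Pool.Agent.helper53.BND.SpecL

set_option autoImplicit false

open scoped Topology Matrix
open Filter Finset

namespace Pool.Agent.BND

open Pool.Agent.CZ Pool.Agent.PV

theorem LLG_lift (f : ℝ → ℂ) (hf : ContinuousOn f U) (h0 : ∀ s ∈ U, f s ≠ 0) (a : ℂ) (ha : f 0 = Complex.exp a) :
    ∃ L : ℝ → ℂ, ContinuousOn L U ∧ L 0 = a ∧ ∀ s ∈ U, f s = Complex.exp (L s) := by
  let γ : C(unitInterval, {z : ℂ // z ≠ 0}) :=
    ⟨fun s => ⟨f s, h0 s s.2⟩, Continuous.subtype_mk (continuousOn_iff_continuous_domRestrict.1 hf) _⟩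
  have hγ : γ 0 = (fun z : ℂ => (⟨_, z.exp_ne_zero⟩ : {z : ℂ // z ≠ 0})) a := Subtype.ext ha
  obtain ⟨Γ, h1, h2⟩ := Complex.isCoveringMap_exp.exists_path_lifts γ a hγ
  refine ⟨fun s => Γ (Set.projIcc 0 1 zero_le_one s), (Γ.continuous.comp continuous_projIcc).continuousOn, ?_, fun s hs => ?_⟩
  · show Γ (Set.projIcc 0 1 zero_le_one 0) = a
    rw [Set.projIcc_left]
    exact h2
  · show f s = Complex.exp (Γ (Set.projIcc 0 1 zero_le_one s))
    rw [Set.projIcc_of_mem zero_le_one hs]
    have h3 := congrFun h1 ⟨s, hs⟩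
    exact (congrArg Subtype.val h3).symm

theorem LLG (hLBE : LBE_stmt) : LLG_stmt := by
  intro l hl κ _ _ G hG
  classical
  have h0U : (0 : ℝ) ∈ U := ⟨le_refl _, zero_le_one⟩
  have h1U : (1 : ℝ) ∈ U := ⟨zero_le_one, le_refl _⟩
  let la : ℕ → ℂ := fun v => Complex.log (mx l G v 0).det
  have hla : ∀ v, v < l.n → Complex.exp (la v) = (mx l G v 0).det := fun v hv =>
    Complex.exp_log (hG.det v 0 (lt_of_lt_of_le hv hl.nN) h0U)
  have hend : ∀ e (b : Bool), e < l.N → (mx l G e (if b then 1 else 0)).det = Complex.exp (((l.W e b).map la).sum) := by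
    intro e b he
    have h1 : mx l G e (if b then 1 else 0) =
        Matrix.of fun p q : κ × Fin (l.h e) => bd l.h (l.W e b) (fun v => G p.1 q.1 v 0) p.2 q.2 := by
      ext p q
      exact (hG.fm p.1 q.1).ends e p.2 q.2 b he p.2.2 q.2.2
    rw [h1, hLBE l hl κ e b (fun a c v => G a c v 0) he, Complex.exp_list_sum, List.map_map]
    congr 1
    refine List.map_congr_left fun v hv => ?_
    exact (hla v (hl.mem e he b v hv)).symm
  have hcd : ∀ e, e < l.N → ContinuousOn (fun s => (mx l G e s).det) U := by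
    intro e he
    rw [continuousOn_iff_continuous_domRestrict]
    have hc : Continuous fun s : U => mx l G e s := by
      refine continuous_pi fun p => continuous_pi fun q => ?_
      exact continuousOn_iff_continuous_domRestrict.1 ((hG.fm p.1 q.1).cont e p.2 q.2 he p.2.2 q.2.2)
    exact hc.matrix_det
  have hband : ∀ e, ∃ (L : ℝ → ℂ) (m : ℤ), e < l.N → (ContinuousOn L U ∧ L 0 = ((l.W e false).map la).sum ∧
      L 1 = ((l.W e true).map la).sum + 2 * Real.pi * Complex.I * (m : ℂ) ∧ ∀ s ∈ U, (mx l G e s).det = Complex.exp (L s)) := by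
    intro e
    by_cases he : e < l.N
    · obtain ⟨L, h1, h2, h3⟩ := LLG_lift (fun s => (mx l G e s).det) (hcd e he) (fun s hs => hG.det e s he hs)
        (((l.W e false).map la).sum) (by simpa using hend e false he)
      have h4 : Complex.exp (L 1) = Complex.exp (((l.W e true).map la).sum) := by
        rw [← h3 1 h1U]
        simpa using hend e true he
      obtain ⟨m, hm⟩ := Complex.exp_eq_exp_iff_exists_int.1 h4
      exact ⟨L, m, fun _ => ⟨h1, h2, by rw [hm]; ring, h3⟩⟩
    · exact ⟨fun _ => 0, 0, fun h => absurd h he⟩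
  choose L m hLm using hband
  let lam : ℕ → ℝ → ℂ := fun e s => if e < l.n then la e else L e s
  let nn : ℕ → ℤ := fun e => if e < l.n then 0 else m e
  have hl0 : ∀ v, v < l.n → ∀ s, lam v s = la v := fun v hv s => if_pos hv
  have hmap : ∀ e b, e < l.N → ((l.W e b).map fun v => lam v 0) = (l.W e b).map la := by
    intro e b he
    exact List.map_congr_left fun v hv => hl0 v (hl.mem e he b v hv) 0
  refine ⟨lam, nn, ⟨fun e he => ?_, fun e he s => ?_, fun e he => ?_, fun e he => ?_⟩, fun e s he hs => ?_⟩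
  · by_cases h : e < l.n
    · have h1 : lam e = fun _ => la e := funext fun s => hl0 e h s
      rw [h1]
      exact continuousOn_const
    · have h1 : lam e = L e := funext fun s => if_neg h
      rw [h1]
      exact (hLm e he).1
  · rw [hl0 e he, hl0 e he]
  · rw [hmap e false he]
    by_cases h : e < l.n
    · rw [hl0 e h, hl.vtx e h]
      simp
    · show (if e < l.n then la e else L e 0) = _
      rw [if_neg h]
      exact (hLm e he).2.1
  · rw [hmap e true he]
    by_cases h : e < l.n
    · show (if e < l.n then la e else L e 1) = _ + 2 * Real.pi * Complex.I * ((if e < l.n then 0 else m e : ℤ) : ℂ)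
      rw [if_pos h, if_pos h, hl.vtx e h]
      simp
    · show (if e < l.n then la e else L e 1) = _ + 2 * Real.pi * Complex.I * ((if e < l.n then 0 else m e : ℤ) : ℂ)
      rw [if_neg h, if_neg h]
      exact (hLm e he).2.2.1
  · by_cases h : e < l.n
    · rw [hl0 e h, hla e h]
      have h1 : mx l G e s = mx l G e 0 := by
        ext p q
        exact (hG.fm p.1 q.1).vtx e s p.2 q.2 h hs p.2.2 q.2.2
      rw [h1]
    · show _ = Complex.exp (if e < l.n then la e else L e s)
      rw [if_neg h]
      exact (hLm e he).2.2.2 s hs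

end Pool.Agent.BND
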