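import Pool.Agent.helper72.BND.SpecS

/-!
# Project bnd (MP_376aaf_an), block H: the wedge of two rows, rank one
-/

set_option autoImplicit false

open Finset

namespace Pool.Agent.BND

theorem LWG : LWG_stmt := by
  intro H _ H' hr n th k c hc y y' hy hy'
  -- proportional on `H_m`
  have hpr : ∀ z z' : ℕ → ℤ, ∑ v ∈ range n, z v • th v ∈ H' → ∑ v ∈ range n, z' v • th v ∈ H' →
      (∑ v ∈ range n, y v * z v) * (∑ v ∈ range n, y' v * z' v) =
      (∑ v ∈ range n, y v * z' v) * (∑ v ∈ range n, y' v * z v) := by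
    intro z z' hz hz'
    obtain ⟨a, b, hab, he⟩ := hr _ hz _ hz'
    have h0 : ∑ v ∈ range n, (a * z v - b * z' v) • th v = 0 := by
      simp_rw [sub_smul, mul_smul]
      rw [Finset.sum_sub_distrib, ← Finset.smul_sum, ← Finset.smul_sum, he, sub_self]
    have h1 := hy _ h0
    have h2 := hy' _ h0
    have e1 : a * (∑ v ∈ range n, y v * z v) = b * ∑ v ∈ range n, y v * z' v := by
      rw [← sub_eq_zero, ← h1, Finset.mul_sum, Finset.mul_sum, ← Finset.sum_sub_distrib]
      exact Finset.sum_congr rfl fun v _ => by ring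
    have e2 : a * (∑ v ∈ range n, y' v * z v) = b * ∑ v ∈ range n, y' v * z' v := by
      rw [← sub_eq_zero, ← h2, Finset.mul_sum, Finset.mul_sum, ← Finset.sum_sub_distrib]
      exact Finset.sum_congr rfl fun v _ => by ring
    rcases hab with ha | hb
    · refine mul_left_cancel₀ ha ?_
      rw [← mul_assoc, e1]
      rw [mul_left_comm, e2]
      ring
    · refine mul_left_cancel₀ hb ?_
      have e3 : b * ((∑ v ∈ range n, y v * z v) * ∑ v ∈ range n, y' v * z' v) =
          (∑ v ∈ range n, y v * z v) * (b * ∑ v ∈ range n, y' v * z' v) := by ring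
      have e4 : b * ((∑ v ∈ range n, y v * z' v) * ∑ v ∈ range n, y' v * z v) =
          (b * ∑ v ∈ range n, y v * z' v) * ∑ v ∈ range n, y' v * z v := by ring
      rw [e3, e4, ← e1, ← e2]
      ring
  have hrs : ∃ r s α β : ℤ, α * r + β * s = 1 ∧ ∀ z : ℕ → ℤ, ∑ v ∈ range n, z v • th v ∈ H' →
      (∑ v ∈ range n, y v * z v) * s = (∑ v ∈ range n, y' v * z v) * r := by
    by_cases h : ∃ z : ℕ → ℤ, ∑ v ∈ range n, z v • th v ∈ H' ∧
        ((∑ v ∈ range n, y v * z v) ≠ 0 ∨ (∑ v ∈ range n, y' v * z v) ≠ 0)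
    · obtain ⟨z₀, hz₀, hne⟩ := h
      set p := ∑ v ∈ range n, y v * z₀ v with hp
      set p' := ∑ v ∈ range n, y' v * z₀ v with hp'
      have hg : (Int.gcd p p' : ℤ) ≠ 0 := by
        intro h0
        have h1 := Int.gcd_eq_zero_iff.1 (Int.natCast_eq_zero.1 h0)
        rcases hne with h2 | h2
        · exact h2 h1.1
        · exact h2 h1.2
      obtain ⟨r, hr'⟩ := Int.gcd_dvd_left (a := p) (b := p')
      obtain ⟨s, hs'⟩ := Int.gcd_dvd_right (a := p) (b := p')
      refine ⟨r, s, Int.gcdA p p', Int.gcdB p p', ?_, fun z hz => ?_⟩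
      · refine mul_left_cancel₀ hg ?_
        have h1 := Int.gcd_eq_gcd_ab p p'
        have h2 : (Int.gcd p p' : ℤ) * (Int.gcdA p p' * r + Int.gcdB p p' * s) =
            ((Int.gcd p p' : ℤ) * r) * Int.gcdA p p' + ((Int.gcd p p' : ℤ) * s) * Int.gcdB p p' := by ring
        rw [h2, ← hr', ← hs', ← h1, mul_one]
      · refine mul_left_cancel₀ hg ?_
        have h1 := hpr z z₀ hz hz₀
        rw [← hp, ← hp'] at h1
        have h2 : (Int.gcd p p' : ℤ) * ((∑ v ∈ range n, y v * z v) * s) =
            (∑ v ∈ range n, y v * z v) * ((Int.gcd p p' : ℤ) * s) := by ring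
        have h3 : (Int.gcd p p' : ℤ) * ((∑ v ∈ range n, y' v * z v) * r) =
            ((Int.gcd p p' : ℤ) * r) * (∑ v ∈ range n, y' v * z v) := by ring
        rw [h2, h3, ← hr', ← hs', h1]
    · push Not at h
      exact ⟨1, 0, 1, 0, by norm_num, fun z hz => by rw [(h z hz).1, (h z hz).2]; simp⟩
  obtain ⟨r, s, α, β, h1, h2⟩ := hrs
  obtain ⟨a, ha⟩ := hc.ann (fun v => y v - r * (α * y v + β * y' v)) (fun z hz => by
    have h3 := h2 z hz
    have h4 : ∑ v ∈ range n, (y v - r * (α * y v + β * y' v)) * z v =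
        (∑ v ∈ range n, y v * z v) - r * α * (∑ v ∈ range n, y v * z v) - β * ((∑ v ∈ range n, y' v * z v) * r) := by
      simp_rw [Finset.sum_mul, Finset.mul_sum]
      rw [← Finset.sum_sub_distrib, ← Finset.sum_sub_distrib]
      exact Finset.sum_congr rfl fun v _ => by ring
    rw [h4, ← h3]
    have h5 : (∑ v ∈ range n, y v * z v) - r * α * (∑ v ∈ range n, y v * z v) - β * ((∑ v ∈ range n, y v * z v) * s) =
        (∑ v ∈ range n, y v * z v) * (1 - (α * r + β * s)) := by ring
    rw [h5, h1, sub_self, mul_zero])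
  obtain ⟨a', ha'⟩ := hc.ann (fun v => y' v - s * (α * y v + β * y' v)) (fun z hz => by
    have h3 := h2 z hz
    have h4 : ∑ v ∈ range n, (y' v - s * (α * y v + β * y' v)) * z v =
        (∑ v ∈ range n, y' v * z v) - s * β * (∑ v ∈ range n, y' v * z v) - α * ((∑ v ∈ range n, y v * z v) * s) := by
      simp_rw [Finset.sum_mul, Finset.mul_sum]
      rw [← Finset.sum_sub_distrib, ← Finset.sum_sub_distrib]
      exact Finset.sum_congr rfl fun v _ => by ring
    rw [h4, h3]
    have h5 : (∑ v ∈ range n, y' v * z v) - s * β * (∑ v ∈ range n, y' v * z v) - α * ((∑ v ∈ range n, y' v * z v) * r) =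
        (∑ v ∈ range n, y' v * z v) * (1 - (α * r + β * s)) := by ring
    rw [h5, h1, sub_self, mul_zero])
  refine ⟨fun v j => y v * a' j - s * (α * y v + β * y' v) * a j, fun v w hv hw => ?_⟩
  have e1 := ha v hv
  have e2 := ha w hw
  have e3 := ha' v hv
  have e4 := ha' w hw
  have e5 : ∑ j ∈ range k, ((y v * a' j - s * (α * y v + β * y' v) * a j) * c j w -
      (y w * a' j - s * (α * y w + β * y' w) * a j) * c j v) =
      y v * (∑ j ∈ range k, a' j * c j w) - s * (α * y v + β * y' v) * (∑ j ∈ range k, a j * c j w) -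
      (y w * (∑ j ∈ range k, a' j * c j v) - s * (α * y w + β * y' w) * (∑ j ∈ range k, a j * c j v)) := by
    simp_rw [Finset.mul_sum]
    rw [← Finset.sum_sub_distrib, ← Finset.sum_sub_distrib, ← Finset.sum_sub_distrib]
    exact Finset.sum_congr rfl fun j _ => by ring
  rw [e5, ← e1, ← e2, ← e3, ← e4]
  ring

end Pool.Agent.BND
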