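import Pool.Agent.helper72.BND.SpecS
import Pool.Agent.helper72.PV.Cantor

/-!
# Project bnd (MP_376aaf_an), block H: the next stage with large entries
-/

set_option autoImplicit false

open Finset

namespace Pool.Agent.BND

theorem NXT_aux (H : Type) [AddCommGroup H] (P : H → Prop) (g : H) (hS : PVH.SOG P g) (n : ℕ) (v : ℕ → H) (hn : 0 < n)
    (hv : ∀ j, j < n → P (v j)) (x : H) (hx : P x) (N : ℕ) :
    ∃ (n' : ℕ) (w : ℕ → H) (M : ℕ → ℕ → ℕ), 0 < n' ∧ (∀ j', j' < n' → P (w j')) ∧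
      (∀ j, j < n → v j = ∑ j' ∈ range n', M j' j • w j') ∧
      (∀ j' j, j' < n' → j < n → N + 1 ≤ M j' j) ∧
      (∀ z : ℕ → ℤ, ∑ j ∈ range n, z j • v j = 0 → ∀ j', j' < n' →
        ∑ j ∈ range n, (M j' j : ℤ) * z j = 0) ∧
      ∃ c : ℕ → ℕ, x = ∑ j' ∈ range n', c j' • w j' := by
  have hSTN : PVH.STN_stmt := PVH.STN (PVH.STP PVH.allSHD (PVH.MIX PVH.LOW))
  induction N with
  | zero =>
    obtain ⟨n', w, M, h1, h2, h3, h4, h5, h6⟩ := hSTN H P g hS n v hn hv x hx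
    exact ⟨n', w, M, h1, h2, h3, fun j' j a b => le_trans (by norm_num) (h4 j' j a b), h5, h6⟩
  | succ N ih =>
    obtain ⟨n₁, w₁, M₁, h1, h2, h3, h4, h5, _⟩ := ih
    obtain ⟨n₂, w₂, M₂, k1, k2, k3, k4, k5, k6⟩ := hSTN H P g hS n₁ w₁ h1 h2 x hx
    refine ⟨n₂, w₂, fun j'' j => ∑ j' ∈ range n₁, M₂ j'' j' * M₁ j' j, k1, k2, fun j hj => ?_, fun j'' j hj'' hj => ?_,
      fun z hz j'' hj'' => ?_, k6⟩
    · rw [h3 j hj]
      rw [Finset.sum_congr rfl fun j' hj' => by rw [k3 j' (Finset.mem_range.1 hj'), Finset.smul_sum]]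
      rw [Finset.sum_comm]
      refine Finset.sum_congr rfl fun j'' _ => ?_
      rw [Finset.sum_smul]
      refine Finset.sum_congr rfl fun j' _ => ?_
      rw [smul_smul, mul_comm]
    · have e1 : M₂ j'' 0 * M₁ 0 j ≤ ∑ j' ∈ range n₁, M₂ j'' j' * M₁ j' j :=
        Finset.single_le_sum (f := fun j' => M₂ j'' j' * M₁ j' j) (fun _ _ => Nat.zero_le _) (Finset.mem_range.2 h1)
      have e2 := k4 j'' 0 hj'' h1
      have e3 := h4 0 j h1 hj
      have e4 : 3 * (N + 1) ≤ M₂ j'' 0 * M₁ 0 j := Nat.mul_le_mul e2 e3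
      show N + 1 + 1 ≤ ∑ j' ∈ range n₁, M₂ j'' j' * M₁ j' j
      omega
    · have e1 := k5 (fun j' => ∑ j ∈ range n, (M₁ j' j : ℤ) * z j) ?_ j'' hj''
      · rw [← e1]
        push_cast
        simp_rw [Finset.sum_mul, Finset.mul_sum]
        rw [Finset.sum_comm]
        refine Finset.sum_congr rfl fun j' _ => Finset.sum_congr rfl fun j _ => ?_
        ring
      · refine Finset.sum_eq_zero fun j' hj' => ?_
        rw [h5 z hz j' (Finset.mem_range.1 hj'), zero_smul]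

theorem NXT : NXT_stmt := by
  intro H _ P g hS n v hn hv x hx N
  obtain ⟨n', w, M, h1, h2, h3, h4, h5, h6⟩ := NXT_aux H P g hS n v hn hv x hx N
  exact ⟨n', w, M, h1, h2, h3, fun j' j a b => le_trans (Nat.le_succ _) (h4 j' j a b), h5, h6⟩

end Pool.Agent.BND
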