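import Pool.Agent.helper72.BND.SpecS

/-!
# Project bnd (MP_376aaf_an), block H: the path in the lattice close to the segment
-/

set_option autoImplicit false

open Finset

namespace Pool.Agent.BND

theorem SEG : SEG_stmt := by
  intro k c a κ
  set R : (ℕ → ℤ) → (ℕ → ℤ) → Prop := fun p p' : ℕ → ℤ =>
      Ner κ (fun v => ∑ j ∈ range k, a j * c j v) (fun v => ∑ j ∈ range k, |c j v|) p ∧
      Ner κ (fun v => ∑ j ∈ range k, a j * c j v) (fun v => ∑ j ∈ range k, |c j v|) p' ∧
      ∃ j, j < k ∧ ((∀ v, p' v = p v + c j v) ∨ ∀ v, p' v = p v - c j v) with hR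
  let A : ℕ := ∑ j ∈ range k, (a j).natAbs + 1
  have hA : 0 < A := Nat.succ_pos _
  have hm : ∀ j, j < k → (a j).natAbs ≤ A := fun j hj =>
    le_trans (Finset.single_le_sum (f := fun j => (a j).natAbs) (fun _ _ => Nat.zero_le _) (Finset.mem_range.2 hj)) (Nat.le_succ _)
  let f : ℕ → ℕ → ℕ := fun i j => (a j).natAbs * i / A
  have hf0 : ∀ j, f 0 j = 0 := fun j => by
    show (a j).natAbs * 0 / A = 0
    rw [mul_zero, Nat.zero_div]
  have hfA : ∀ j, f A j = (a j).natAbs := fun j => Nat.mul_div_cancel _ hA
  have hf1 : ∀ i j, j < k → f (i + 1) j = f i j ∨ f (i + 1) j = f i j + 1 := by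
    intro i j hj
    have h1 : (a j).natAbs * i / A ≤ (a j).natAbs * (i + 1) / A := Nat.div_le_div_right (Nat.mul_le_mul_left _ (Nat.le_succ i))
    have h2 : (a j).natAbs * (i + 1) / A ≤ (a j).natAbs * i / A + 1 := by
      rw [← Nat.add_div_right _ hA]
      refine Nat.div_le_div_right ?_
      rw [mul_add, mul_one]
      exact Nat.add_le_add_left (hm j hj) _
    show (a j).natAbs * (i + 1) / A = (a j).natAbs * i / A ∨ (a j).natAbs * (i + 1) / A = (a j).natAbs * i / A + 1
    omega
  have hfr : ∀ i j, (f i j : ℝ) ≤ (a j).natAbs * (i / A) ∧ ((a j).natAbs : ℝ) * (i / A) ≤ f i j + 1 := by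
    intro i j
    have hA' : (0 : ℝ) < A := Nat.cast_pos.2 hA
    have h1 : ((a j).natAbs : ℝ) * (i / A) = ((a j).natAbs * i : ℕ) / A := by
      rw [Nat.cast_mul]
      ring
    rw [h1]
    refine ⟨?_, ?_⟩
    · rw [le_div_iff₀ hA']
      have h2 : (a j).natAbs * i / A * A ≤ (a j).natAbs * i := Nat.div_mul_le_self _ _
      exact_mod_cast h2
    · rw [div_le_iff₀ hA']
      have h2 : (a j).natAbs * i < ((a j).natAbs * i / A + 1) * A := by
        exact Nat.lt_of_lt_of_eq (Nat.lt_mul_div_succ ((a j).natAbs * i) hA) (mul_comm _ _)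
      exact_mod_cast h2.le
  let q : ℕ → ℕ → ℕ → ℤ := fun i l j => (a j).sign * ((if j < l then f (i + 1) j else f i j : ℕ) : ℤ)
  let Pt : ℕ → ℕ → ℕ → ℤ := fun i l v => κ v + ∑ j ∈ range k, q i l j * c j v
  have hner : ∀ i l, i ≤ A → Ner κ (fun v => ∑ j ∈ range k, a j * c j v) (fun v => ∑ j ∈ range k, |c j v|) (Pt i l) := by
    intro i l hi
    have hA' : (0 : ℝ) < A := Nat.cast_pos.2 hA
    refine ⟨(i : ℝ) / A, by positivity, ?_, fun v => ?_⟩
    · rw [div_le_one hA']
      exact_mod_cast hi
    · have h1 : ((Pt i l v : ℤ) : ℝ) - ((κ v : ℝ) + (i : ℝ) / A * ((∑ j ∈ range k, a j * c j v : ℤ) : ℝ)) =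
          ∑ j ∈ range k, ((q i l j : ℝ) - (i : ℝ) / A * a j) * (c j v : ℝ) := by
        show (((κ v + ∑ j ∈ range k, q i l j * c j v : ℤ)) : ℝ) - _ = _
        push_cast
        rw [add_sub_add_left_eq_sub, Finset.mul_sum, ← Finset.sum_sub_distrib]
        exact Finset.sum_congr rfl fun j _ => by ring
      rw [h1]
      push_cast
      refine le_trans (Finset.abs_sum_le_sum_abs _ _) (Finset.sum_le_sum fun j hj => ?_)
      rw [abs_mul]
      refine le_trans (mul_le_mul_of_nonneg_right ?_ (abs_nonneg _)) (le_of_eq (one_mul _))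
      have h2 : (a j : ℝ) = ((a j).sign : ℝ) * ((a j).natAbs : ℝ) := by
        have h3 := Int.sign_mul_natAbs (a j)
        have h4 : (((a j).sign * ((a j).natAbs : ℤ) : ℤ) : ℝ) = (a j : ℝ) := by rw [h3]
        rw [← h4, Int.cast_mul, Int.cast_natCast]
      have h5 : |((a j).sign : ℝ)| ≤ 1 := by
        rcases lt_trichotomy (a j) 0 with h | h | h
        · rw [Int.sign_eq_neg_one_of_neg h]; norm_num
        · rw [h]; norm_num
        · rw [Int.sign_eq_one_of_pos h]; norm_num
      have h6 : (q i l j : ℝ) - (i : ℝ) / A * a j =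
          ((a j).sign : ℝ) * (((if j < l then f (i + 1) j else f i j : ℕ) : ℝ) - ((a j).natAbs : ℝ) * (i / A)) := by
        show ((((a j).sign * ((if j < l then f (i + 1) j else f i j : ℕ) : ℤ) : ℤ)) : ℝ) - _ = _
        rw [h2]
        push_cast
        ring
      rw [h6, abs_mul]
      refine mul_le_one₀ h5 (abs_nonneg _) ?_
      obtain ⟨g1, g2⟩ := hfr i j
      rw [abs_le]
      split_ifs
      · rcases hf1 i j (Finset.mem_range.1 hj) with h7 | h7
        · rw [h7]
          constructor <;> linarith
        · rw [h7, Nat.cast_add, Nat.cast_one]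
          constructor <;> linarith
      · constructor <;> linarith
  have hstep : ∀ i l, i ≤ A → l < k → Relation.ReflTransGen R (Pt i l) (Pt i (l + 1)) := by
    intro i l hi hl
    have h1 : ∀ v, Pt i (l + 1) v = Pt i l v + (a l).sign * ((f (i + 1) l : ℤ) - f i l) * c l v := by
      intro v
      have h2 : ∑ j ∈ range k, q i (l + 1) j * c j v - ∑ j ∈ range k, q i l j * c j v =
          (a l).sign * ((f (i + 1) l : ℤ) - f i l) * c l v := by
        rw [← Finset.sum_sub_distrib, Finset.sum_eq_single l]
        · show (a l).sign * ((if l < l + 1 then f (i + 1) l else f i l : ℕ) : ℤ) * c l v -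
            (a l).sign * ((if l < l then f (i + 1) l else f i l : ℕ) : ℤ) * c l v = _
          rw [if_pos (Nat.lt_succ_self l), if_neg (lt_irrefl l)]
          ring
        · intro j _ hjl
          show (a j).sign * ((if j < l + 1 then f (i + 1) j else f i j : ℕ) : ℤ) * c j v -
            (a j).sign * ((if j < l then f (i + 1) j else f i j : ℕ) : ℤ) * c j v = 0
          by_cases h3 : j < l
          · rw [if_pos h3, if_pos (by omega)]
            ring
          · rw [if_neg h3, if_neg (by omega)]
            ring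
        · intro h
          exact absurd (Finset.mem_range.2 hl) h
      show κ v + _ = κ v + _ + _
      linarith
    rcases hf1 i l hl with h2 | h2
    · have h3 : Pt i (l + 1) = Pt i l := by
        ext v
        rw [h1 v, h2]
        ring
      rw [h3]
    · have h3 : ∀ v, Pt i (l + 1) v = Pt i l v + (a l).sign * c l v := by
        intro v
        rw [h1 v, h2]
        push_cast
        ring
      rcases lt_trichotomy (a l) 0 with h | h | h
      · refine Relation.ReflTransGen.single ⟨hner i l hi, hner i (l + 1) hi, l, hl, Or.inr fun v => ?_⟩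
        rw [h3 v, Int.sign_eq_neg_one_of_neg h]
        ring
      · have h4 : Pt i (l + 1) = Pt i l := by
          ext v
          rw [h3 v, h, Int.sign_zero]
          ring
        rw [h4]
      · refine Relation.ReflTransGen.single ⟨hner i l hi, hner i (l + 1) hi, l, hl, Or.inl fun v => ?_⟩
        rw [h3 v, Int.sign_eq_one_of_pos h]
        ring
  have hrow : ∀ i l, i ≤ A → l ≤ k → Relation.ReflTransGen R (Pt i 0) (Pt i l) := by
    intro i l hi
    induction l with
    | zero => intro _; exact Relation.ReflTransGen.refl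
    | succ l ih => intro hl; exact (ih (by omega)).trans (hstep i l hi (by omega))
  have hnext : ∀ i, Pt i k = Pt (i + 1) 0 := by
    intro i
    ext v
    show κ v + _ = κ v + _
    congr 1
    refine Finset.sum_congr rfl fun j hj => ?_
    show (a j).sign * ((if j < k then f (i + 1) j else f i j : ℕ) : ℤ) * c j v =
      (a j).sign * ((if j < 0 then f (i + 1 + 1) j else f (i + 1) j : ℕ) : ℤ) * c j v
    rw [if_pos (Finset.mem_range.1 hj), if_neg (Nat.not_lt_zero j)]
  have hall : ∀ i, i ≤ A → Relation.ReflTransGen R (Pt 0 0) (Pt i 0) := by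
    intro i
    induction i with
    | zero => intro _; exact Relation.ReflTransGen.refl
    | succ i ih =>
      intro hi
      have h1 := (ih (by omega)).trans (hrow i k (by omega) le_rfl)
      rwa [hnext] at h1
  have h1 := hall A le_rfl
  have h2 : Pt 0 0 = κ := by
    ext v
    show κ v + _ = κ v
    rw [Finset.sum_eq_zero, add_zero]
    intro j _
    show (a j).sign * ((if j < 0 then f (0 + 1) j else f 0 j : ℕ) : ℤ) * c j v = 0
    rw [if_neg (Nat.not_lt_zero j), hf0, Nat.cast_zero, mul_zero, zero_mul]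
  have h3 : Pt A 0 = fun v => κ v + ∑ j ∈ range k, a j * c j v := by
    ext v
    show κ v + _ = κ v + _
    congr 1
    refine Finset.sum_congr rfl fun j _ => ?_
    show (a j).sign * ((if j < 0 then f (A + 1) j else f A j : ℕ) : ℤ) * c j v = _
    rw [if_neg (Nat.not_lt_zero j), hfA, Int.sign_mul_natAbs]
  rwa [h2, h3] at h1

end Pool.Agent.BND
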