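import Pool.Agent.helper70.BND.DefsH

/-!
# Project bnd (MP_376aaf_an), block H, arithmetic part: the next stage, the lattices, the lattice path

`NXT`: the next stage with all entries of the matrix as large as we like. `IsLat`: a basis `c j`, `j < k`, of the lattice
`Λ = Ann(H_m)`, `H_m = {z : ∑ z v • th v ∈ H'}`; existence (`LAT`), the transposed matrix maps `Λ_(m+1)` to `Λ_m` (`LTR`), the
wedge of two rows for rank one (`LWG`). `SEG`: the path in the lattice close to the segment. All are proved (closed theorems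
in `Pool/Agent/helper72/BND/NXT.lean`, `LAT.lean`, `SEG.lean`).
-/

set_option autoImplicit false

open Finset

namespace Pool.Agent.BND

/-- the next stage: a refinement of `v` with all entries `≥ N`, killing the relations, with `x` in the span -/
def NXT_stmt : Prop :=
  ∀ (H : Type) [AddCommGroup H] (P : H → Prop) (g : H), PVH.SOG P g →
    ∀ (n : ℕ) (v : ℕ → H), 0 < n → (∀ j, j < n → P (v j)) → ∀ x, P x → ∀ N : ℕ,
    ∃ (n' : ℕ) (w : ℕ → H) (M : ℕ → ℕ → ℕ), 0 < n' ∧ (∀ j', j' < n' → P (w j')) ∧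
      (∀ j, j < n → v j = ∑ j' ∈ range n', M j' j • w j') ∧
      (∀ j' j, j' < n' → j < n → N ≤ M j' j) ∧
      (∀ z : ℕ → ℤ, ∑ j ∈ range n, z j • v j = 0 → ∀ j', j' < n' →
        ∑ j ∈ range n, (M j' j : ℤ) * z j = 0) ∧
      ∃ c : ℕ → ℕ, x = ∑ j' ∈ range n', c j' • w j'

/-- `c j`, `j < k`, is a basis of the annihilator of `{z : ∑ z v • th v ∈ H'}` -/
structure IsLat {H : Type} [AddCommGroup H] (H' : AddSubgroup H) (n : ℕ) (th : ℕ → H) (k : ℕ) (c : ℕ → ℕ → ℤ) : Prop where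
  supp : ∀ j v, n ≤ v → c j v = 0
  mem : ∀ z : ℕ → ℤ, ∑ v ∈ range n, z v • th v ∈ H' ↔ ∀ j, j < k → ∑ v ∈ range n, c j v * z v = 0
  surj : ∀ nn : ℕ → ℤ, ∃ z : ℕ → ℤ, ∀ j, j < k → ∑ v ∈ range n, c j v * z v = nn j
  ann : ∀ y : ℕ → ℤ, (∀ z : ℕ → ℤ, ∑ v ∈ range n, z v • th v ∈ H' → ∑ v ∈ range n, y v * z v = 0) →
    ∃ a : ℕ → ℤ, ∀ v, v < n → y v = ∑ j ∈ range k, a j * c j v

/-- existence -/
def LAT_stmt : Prop :=
  ∀ (H : Type) [AddCommGroup H] (H' : AddSubgroup H), (∀ (n : ℕ) (x : H), 1 ≤ n → n • x ∈ H' → x ∈ H') →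
    ∀ (n : ℕ) (th : ℕ → H), ∃ (k : ℕ) (c : ℕ → ℕ → ℤ), IsLat H' n th k c

/-- the transposed matrix maps the next lattice to the lattice -/
def LTR_stmt : Prop :=
  ∀ (H : Type) [AddCommGroup H] (H' : AddSubgroup H) (n : ℕ) (th : ℕ → H) (k : ℕ) (c : ℕ → ℕ → ℤ), IsLat H' n th k c →
    ∀ (n' : ℕ) (th' : ℕ → H) (k' : ℕ) (c' : ℕ → ℕ → ℤ), IsLat H' n' th' k' c' → ∀ M : ℕ → ℕ → ℕ,
    (∀ v, v < n → th v = ∑ v' ∈ range n', M v' v • th' v') →
    ∀ j', j' < k' → ∃ a : ℕ → ℤ, ∀ v, v < n → ∑ v' ∈ range n', (M v' v : ℤ) * c' j' v' = ∑ j ∈ range k, a j * c j v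

/-- rank one: the wedge of two vectors which kill the relations is in `ℤ^n ∧ Λ` -/
def LWG_stmt : Prop :=
  ∀ (H : Type) [AddCommGroup H] (H' : AddSubgroup H), RkOne H' →
    ∀ (n : ℕ) (th : ℕ → H) (k : ℕ) (c : ℕ → ℕ → ℤ), IsLat H' n th k c → ∀ y y' : ℕ → ℤ,
    (∀ z : ℕ → ℤ, ∑ v ∈ range n, z v • th v = 0 → ∑ v ∈ range n, y v * z v = 0) →
    (∀ z : ℕ → ℤ, ∑ v ∈ range n, z v • th v = 0 → ∑ v ∈ range n, y' v * z v = 0) →
    ∃ b : ℕ → ℕ → ℤ, ∀ v w, v < n → w < n → y v * y' w - y w * y' v = ∑ j ∈ range k, (b v j * c j w - b w j * c j v)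

/-- `p` is close to the segment from `κ` to `κ + d` -/
def Ner (κ d : ℕ → ℤ) (C : ℕ → ℤ) (p : ℕ → ℤ) : Prop :=
  ∃ r : ℝ, 0 ≤ r ∧ r ≤ 1 ∧ ∀ v, |(p v : ℝ) - (κ v + r * d v)| ≤ C v

/-- the path in the lattice: from `κ` to `κ + ∑ a j * c j` by steps `± c j`, close to the segment -/
def SEG_stmt : Prop :=
  ∀ (k : ℕ) (c : ℕ → ℕ → ℤ) (a κ : ℕ → ℤ),
    Relation.ReflTransGen (fun p p' : ℕ → ℤ =>
      Ner κ (fun v => ∑ j ∈ range k, a j * c j v) (fun v => ∑ j ∈ range k, |c j v|) p ∧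
      Ner κ (fun v => ∑ j ∈ range k, a j * c j v) (fun v => ∑ j ∈ range k, |c j v|) p' ∧
      ∃ j, j < k ∧ ((∀ v, p' v = p v + c j v) ∨ ∀ v, p' v = p v - c j v))
      κ (fun v => κ v + ∑ j ∈ range k, a j * c j v)

end Pool.Agent.BND
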